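import Pool.Agent.Lib.MP_678664_lc_AC.Main

/-!
# MP_678664_lc: circuits of constant depth for the clique problem

The circuits have AND gates and OR gates of any fan-in, NOT gates, arbitrary gates of fan-in at
most `n ^ δ`, and one threshold gate with arbitrary real weights on top, which reads all gates. The
input is a graph with `n` vertices. For all `k ≥ 5`, `d` and `ε > 0` and all large `n` such a
circuit of depth `d` which decides whether the graph has a `k`-clique has at least
`n ^ (⌈k / 2⌉ - ε)` gates.

Rossman (2008) proved this for circuits without threshold gate with the exponent `k / 4`, on random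
graphs with independent edges, for which the exponent `k / 4` is right (Amano 2010). The instances
here are different: the vertices have labels, and the labels of two vertices decide whether they
are adjacent, in such a way that the labels of all proper parts of a clique are typical.

The definitions are in `Pool/Agent/Lib/MP_678664_lc_AC/Defs.lean` and
`Pool/Agent/Lib/MP_8fffab_lc_AC/Defs.lean`.
-/

set_option autoImplicit false

namespace Pool.Agent.Results.MP_678664_lc.ConstantDepthCircuits

open CliqueDepth

theorem result : ∀ k : ℕ, 5 ≤ k → ∀ d : ℕ, ∀ ε : ℝ, 0 < ε → ∃ δ : ℝ, 0 < δ ∧ ∃ n₀ : ℕ,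
    ∀ n ≥ n₀, ∀ f s : ℕ, (f : ℝ) ≤ (n : ℝ) ^ δ → HasCircuit n k d f s →
      (n : ℝ) ^ ((((k + 1) / 2 : ℕ) : ℝ) - ε) ≤ s :=
  fun _ hk d _ hε => main hk d hε

end Pool.Agent.Results.MP_678664_lc.ConstantDepthCircuits
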